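import Mathlib
import Pool.Agent.V11175.Sh6

/-!
# The monotone triangle polynomial at a row with one hole and one descent

We prove `α(n + 1; 1, ..., i - 1, i + 1, i, i + 1, ..., n) = ∑_j (i - j) A_{n,j}` for `1 ≤ i ≤ n - 1`, where
`A_{n,j}` is the number of monotone triangles with bottom row `(1, ..., n)` without `j`.

The proof takes place in the shuffle algebra (with kernel `1 - x + x y`) generated by letters `t_a`, `a ∈ ℕ`.
A word `t_{k_1} ... t_{k_n}` is an alternating polynomial, `α(n; k_1, ..., k_n)` is the value at `(1, ..., 1)`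
of its quotient by the Vandermonde product, and the relations
`t_a t_{a+1} = t_a² + t_{a+1}²`, `t_a³ = 0`, `t_a² t_b + t_a t_b t_a + t_b t_a² = 0` and
`t_a t_b + t_b t_a - t_a t_{b+1} - t_b t_{a+1} + t_{a+1} t_{b+1} + t_{b+1} t_{a+1} = 0` hold in the algebra.
-/

set_option autoImplicit false

namespace Pool.Agent.Results.MP_0e5572_co.HoleAndDescent

open Finset Pool.Agent.V11175.Sh Pool.Agent.V11175.Sh.A Pool.Agent.V11175.MT

/-- the sequence `(1, ..., i - 1, i + 1, i, i + 1, ...)` (index `j` starts at `0`) -/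
def hseq (i j : ℕ) : ℕ := if j + 1 < i then j + 1 else if j + 1 = i then i + 1 else j

/-- the sequence `(1, ..., i - 1, i + 1, ...)` (index `j` starts at `0`) -/
def dseq (i j : ℕ) : ℕ := if j + 1 < i then j + 1 else j + 2

lemma list_h (m i : ℕ) (hi : i ≤ m) :
    List.ofFn (fun j : Fin (m + 3) => hseq (i + 1) j) =
      List.range' 1 i ++ ([i + 2] ++ List.range' (i + 1) (m + 2 - i)) := by
  apply List.ext_getElem
  · simp; omega
  · intro j h1 h2
    rw [List.getElem_ofFn]
    simp only [hseq]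
    by_cases hj : j < i
    · rw [if_pos (by omega), List.getElem_append_left (by simpa using hj), List.getElem_range']
      omega
    · rw [if_neg (by omega), List.getElem_append_right (by simpa using hj)]
      by_cases hj2 : j = i
      · subst hj2
        rw [if_pos rfl]
        simp
      · rw [if_neg (by omega), List.getElem_append_right (by simp; omega), List.getElem_range']
        simp; omega

lemma list_d (m i : ℕ) (hi : i ≤ m) :
    List.ofFn (fun j : Fin m => dseq (i + 1) j) = List.range' 1 i ++ List.range' (i + 2) (m - i) := by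
  apply List.ext_getElem
  · simp; omega
  · intro j h1 h2
    rw [List.getElem_ofFn]
    simp only [dseq]
    by_cases hj : j < i
    · rw [if_pos (by omega), List.getElem_append_left (by simpa using hj), List.getElem_range']
      omega
    · rw [if_neg (by omega), List.getElem_append_right (by simpa using hj), List.getElem_range']
      simp; omega

/-- the word of `h_{n,i}` -/
noncomputable def W (m i : ℕ) : A R := run 1 i * (tt (i + 2) * run (i + 1) (m + 2 - i))

lemma alpha_h (m i : ℕ) (hi : i ≤ m) : alpha (fun j : Fin (m + 3) => hseq (i + 1) j) = al (m + 3) (W m i) := by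
  rw [alpha_of_list _ _ (list_h m i hi), wordL_append, wordL_append, wordL_range', wordL_range',
    wordL_single, W]

/-- the words of the rows with one hole -/
noncomputable def u (m j : ℕ) : ℚ := al m (run 1 j * run (j + 2) (m - j))

lemma u_eq (m j : ℕ) (hj : j ≤ m) : u m j = (numMT m (fun l : Fin m => (dseq (j + 1) l : ℤ)) : ℚ) := by
  have h := alpha_eq_num (fun l : Fin m => dseq (j + 1) l) (by
    intro a b hab
    rw [Fin.lt_def] at hab
    simp only [dseq]
    split_ifs <;> omega)
  rw [← h, alpha_of_list _ _ (list_d m j hj), wordL_append, wordL_range', wordL_range']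
  rfl

lemma W_step (p i : ℕ) : W (i + 1 + p) (i + 1) = W (i + 1 + p) i + tt 1 * run 1 (i + 1 + p + 2) := by
  have e1 : i + 1 + p + 2 - (i + 1) = p + 2 := by omega
  have e2 : i + 1 + p + 2 - i = p + 3 := by omega
  have hs := run_shift_all (K := R) 1 i (p + 2)
  rw [show i + (p + 2) + 1 = i + 1 + p + 2 by ring] at hs
  rw [W, W, e1, e2, ← hs, show 1 + i = i + 1 by ring, run_succ' 1 i, show p + 2 + 1 = p + 3 by ring,
    run_succ (i + 1) (p + 2), run_succ (i + 1 + 1) (p + 1), run_succ (i + 1 + 1 + 1) p,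
    show 1 + i = i + 1 by ring, show i + 1 + 2 = i + 1 + 1 + 1 by ring, show i + 2 = i + 1 + 1 by ring]
  set X : A R := run (i + 1 + 1 + 1 + 1) p with hX
  have h := h3 (K := R) (i + 1)
  have h2 := sq2 (K := R) (i + 1 + 1)
  rw [show i + 1 + 2 = i + 1 + 1 + 1 by ring] at h
  set a := i + 1 with ha
  calc (run 1 i * tt a * (tt (a + 1 + 1) * (tt (a + 1) * (tt (a + 1 + 1) * X))) : A R)
      = run 1 i * ((tt a * (tt (a + 1 + 1) * tt (a + 1))) * (tt (a + 1 + 1) * X)) := by noncomm_ring
    _ = run 1 i * ((tt (a + 1) * (tt a * tt (a + 1)) + tt a * (tt a * tt (a + 1)) -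
          tt (a + 1) * (tt (a + 1) * tt (a + 1 + 1))) * (tt (a + 1 + 1) * X)) := by rw [h]
    _ = run 1 i * (tt (a + 1) * (tt a * (tt (a + 1) * (tt (a + 1 + 1) * X)))) +
          run 1 i * tt a * (tt a * (tt (a + 1) * (tt (a + 1 + 1) * X))) -
          run 1 i * (tt (a + 1) * (tt (a + 1) * (tt (a + 1 + 1) * tt (a + 1 + 1))) * X) := by noncomm_ring
    _ = _ := by rw [h2]; simp

lemma al_W (m i : ℕ) (hi : i ≤ m) :
    al (m + 3) (W m i) = al (m + 3) (W m 0) + i * al (m + 2) (run 1 (m + 2)) := by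
  induction i with
  | zero => simp
  | succ i ih =>
    obtain ⟨p, rfl⟩ : ∃ p, m = i + 1 + p := ⟨m - (i + 1), by omega⟩
    rw [W_step, al_add, ih (by omega), show i + 1 + p + 3 = (i + 1 + p + 2) + 1 by ring, al_tt_run]
    push_cast; ring

lemma sum_tri (n : ℕ) (g : ℕ → ℚ) :
    ∑ i ∈ Finset.range n, ∑ l ∈ Finset.range (n - i), g (i + l) = ∑ j ∈ Finset.range n, ((j : ℚ) + 1) * g j := by
  have h1 : ∀ i ∈ Finset.range n, ∑ l ∈ Finset.range (n - i), g (i + l) = ∑ j ∈ Finset.Ico i n, g j := by
    intro i _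
    rw [Finset.sum_Ico_eq_sum_range]
  rw [Finset.sum_congr rfl h1]
  rw [Finset.sum_comm' (s := Finset.range n) (t := fun i => Finset.Ico i n) (t' := Finset.range n)
    (s' := fun j => Finset.range (j + 1)) (by
      intro x y
      simp only [Finset.mem_range, Finset.mem_Ico]
      omega)]
  refine Finset.sum_congr rfl fun j _ => ?_
  rw [Finset.sum_const, Finset.card_range, nsmul_eq_mul]
  push_cast; ring

lemma al_base (m : ℕ) : al (m + 2) (tt 2 * run 1 (m + 1)) =
    ∑ j ∈ Finset.range (m + 1), u m j - ∑ j ∈ Finset.range (m + 1), ((j : ℚ) + 1) * u m j := by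
  have hd : d (tt 2 * run 1 (m + 1) : A R) = D (run 1 (m + 1) - tt 1 * V 1 (m + 1)) := by
    have h1 := d_tt_run (K := R) 1 (m + 1)
    rw [d_ttmul, d_run] at h1
    rw [d_ttmul, d_run, map_sub, map_mul, ← h1, D_tt]
    noncomm_ring
  rw [al_step (m + 1) ((nat_tt 2).mul (nat_run 1 (m + 1))) hd, al_sub, al_run]
  congr 1
  · refine Finset.sum_congr rfl fun j _ => ?_
    rw [u, show 1 + j + 1 = j + 2 by ring]
  · rw [V, Finset.mul_sum, al_sum, ← sum_tri]
    refine Finset.sum_congr rfl fun i hi => ?_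
    rw [Finset.mem_range] at hi
    have h := d_U (K := R) 1 i (m - i)
    rw [show m + 1 - 1 - i = m - i by omega]
    rw [al_step m ((nat_tt 1).mul ((nat_run _ _).mul (nat_run _ _))) h, V, Finset.mul_sum, al_sum]
    rw [show m - i + 1 = m + 1 - i by omega]
    refine Finset.sum_congr rfl fun l hl => ?_
    rw [Finset.mem_range] at hl
    rw [u, ← mul_assoc, ← run_add, show 1 + i + l + 1 = i + l + 2 by ring,
      show m + 1 - i - 1 - l = m - (i + l) by omega]

/-- **The monotone triangle polynomial at a row with one hole and one descent.**  First: the monotone triangle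
polynomials exist and are unique.  Second: for all `n` and `1 ≤ i ≤ n - 1`,
`α(n + 1; 1, ..., i - 1, i + 1, i, i + 1, ..., n) = ∑_{j = 1}^n (i - j) A_{n,j}`, where `A_{n,j}` denotes the
number of monotone triangles with bottom row `(1, ..., j - 1, j + 1, ..., n)`. -/
theorem result :
    (∀ n : ℕ, ∃! P : MvPolynomial (Fin n) ℚ, IsAlpha n P) ∧
    ∀ n i : ℕ, 1 ≤ i → i + 1 ≤ n → ∀ P : MvPolynomial (Fin (n + 1)) ℚ, IsAlpha (n + 1) P →
      MvPolynomial.eval (fun j : Fin (n + 1) => (hseq i j : ℚ)) P =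
        ∑ j ∈ Finset.Icc 1 n, ((i : ℚ) - j) * numMT (n - 1) (fun l : Fin (n - 1) => (dseq j l : ℤ)) := by
  refine ⟨existsUnique, ?_⟩
  intro n i hi hin P hP
  obtain ⟨m, rfl⟩ : ∃ m, n = m + 2 := ⟨n - 2, by omega⟩
  obtain ⟨i, rfl⟩ : ∃ i', i = i' + 1 := ⟨i - 1, by omega⟩
  rw [eval_eq hP (fun j : Fin (m + 3) => hseq (i + 1) j), alpha_h m i (by omega), al_W m i (by omega)]
  have h0 : W m 0 = tt 2 * run 1 (m + 2) := by
    rw [W, run_zero, one_mul]; rfl
  rw [h0, al_base (m + 1), al_run]
  have h1 : ∀ j ∈ Finset.range (m + 1 + 1), al (m + 1) (run 1 j * run (1 + j + 1) (m + 1 - j)) = u (m + 1) j := by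
    intro j _
    rw [u, show 1 + j + 1 = j + 2 by ring]
  rw [Finset.sum_congr rfl h1]
  have h2 : ∑ j ∈ Finset.Icc 1 (m + 2), (((i + 1 : ℕ) : ℚ) - j) *
      numMT (m + 2 - 1) (fun l : Fin (m + 2 - 1) => (dseq j l : ℤ)) =
      ∑ j ∈ Finset.range (m + 2), (((i + 1 : ℕ) : ℚ) - ((j + 1 : ℕ) : ℚ)) * u (m + 1) j := by
    have e := Finset.sum_Ico_add' (fun j : ℕ => (((i + 1 : ℕ) : ℚ) - (j : ℚ)) * u (m + 1) (j - 1)) 0 (m + 2) 1
    simp only [Nat.add_sub_cancel] at e
    rw [Finset.range_eq_Ico, e]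
    apply Finset.sum_congr
    · ext j; simp
    · intro j hj
      rw [Finset.mem_Ico] at hj
      rw [u_eq (m + 1) (j - 1) (by omega)]
      rw [show j - 1 + 1 = j by omega]
      rfl
  rw [h2]
  rw [Finset.mul_sum, ← Finset.sum_sub_distrib, ← Finset.sum_add_distrib]
  refine Finset.sum_congr rfl fun j _ => ?_
  push_cast
  ring

end Pool.Agent.Results.MP_0e5572_co.HoleAndDescent
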